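import Pool.Agent.Helper53.PT.GoalsC
import Pool.Agent.Helper53.PT.B

/-!
# MP_705522_gt, `q ∈ (2,4)`: (SGN), exponential decay from segments
-/

namespace Pool.Agent.Helper75.PT

open Pool.Agent.Helper53.PT

theorem ble_cond {α : Type} (a b : ℕ) (x y : α) :
    cond (Nat.ble a b) x y = if a ≤ b then x else y := by
  by_cases h : a ≤ b
  · rw [if_pos h, Nat.ble_eq_true_of_le h]; rfl
  · have hb : Nat.ble a b = false := by
      cases hb : Nat.ble a b
      · rfl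
      · exact absurd (Nat.le_of_ble_eq_true hb) h
    rw [if_neg h, hb]; rfl

theorem mx_eq (a b : ℕ) : N.mx a b = max a b := by
  unfold N.mx; rw [ble_cond, max_def]

theorem mn_eq (a b : ℕ) : N.mn a b = min a b := by
  unfold N.mn; rw [ble_cond, min_def]

theorem vR_mono {a b : ℕ} (h : a ≤ b) : vR a ≤ vR b := by
  unfold vR
  have : (a : ℝ) ≤ b := by exact_mod_cast h
  gcongr

theorem aR_mono {a b : ℕ} (h : a ≤ b) : aR a ≤ aR b := by
  unfold aR
  have : (a : ℝ) ≤ b := by exact_mod_cast h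
  gcongr

theorem vR_nonneg (a : ℕ) : 0 ≤ vR a := by unfold vR; positivity

theorem aR_nonneg (a : ℕ) : 0 ≤ aR a := by unfold aR; positivity

theorem div_bd (l b : ℕ) : vR (Nat.div (Nat.shiftLeft l 26) b) * aR b ≤ vR l := by
  have h1 : Nat.div (Nat.shiftLeft l 26) b * b ≤ l * 2 ^ 26 := by
    have h2 : Nat.shiftLeft l 26 = l * 2 ^ 26 := Nat.shiftLeft_eq l 26
    rw [h2]; exact Nat.div_mul_le_self _ _
  unfold vR aR
  have h3 : ((Nat.div (Nat.shiftLeft l 26) b : ℕ) : ℝ) * b ≤ l * 2 ^ 26 := by exact_mod_cast h1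
  rw [div_mul_div_comm, div_le_div_iff₀ (by positivity) (by positivity)]
  nlinarith

theorem exp_bd {σ τ y a : ℝ} (h : a ≤ Real.exp (-(τ * y))) (hst : σ ≤ τ) (hy : 0 ≤ y) :
    a ≤ Real.exp (-(σ * y)) :=
  h.trans (Real.exp_le_exp.2 (by nlinarith))

theorem logb (hLN : GLN) {v : ℕ} {a s : ℝ} (ha1 : a ≤ 1) (hav : a ≤ vR v)
    (hs : s ≤ vR (N.lnL v)) : a ≤ Real.exp (-s) := by
  rcases le_or_gt a 0 with h | h
  · exact h.trans (Real.exp_pos _).le
  · have := hLN.1 v a h ha1 hav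
    calc a = Real.exp (Real.log a) := (Real.exp_log h).symm
      _ ≤ Real.exp (-s) := Real.exp_le_exp.2 (by linarith)

theorem half {θ z m xW xD yN : ℝ} (fa : FA θ z m xW xD yN) {σ y : ℝ} (hσ : σ ≤ 1 / 2)
    (h0 : 0 ≤ y) (hz : y < z) : |f0 θ y| ≤ Real.exp (-(σ * y)) := by
  obtain ⟨-, hpos, -, -, -, -, -, -, -, hexp, -⟩ := bRL θ z m xW xD yN fa
  rw [abs_of_pos (hpos y h0 hz)]
  refine (hexp y h0 hz).trans (Real.exp_le_exp.2 ?_)
  nlinarith

theorem segV_eq (D : N.Tab) (r : ℕ) (h : N.zL D < N.brN r) :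
    N.segV D r = max 1 (N.fst D (cond (Nat.beq r 0) 0 (N.brN (Nat.sub r 1))) (N.brN r)) := by
  unfold N.segV N.fst
  simp only [ble_cond, mx_eq, mn_eq, if_neg (not_le.2 h)]
  rw [max_comm (N.zL D)]

theorem brN_lt : ∀ r < 23, N.brN r < 4294967296 := by decide

theorem brN_23 : N.brN 23 = 4294967296 := by decide

theorem brN_11 : N.brN 11 = 1073741824 := by decide

theorem aR_23 : aR (N.brN 23) = 64 := by rw [brN_23]; unfold aR; norm_num

theorem aR_11 : aR (N.brN 11) = 16 := by rw [brN_11]; unfold aR; norm_num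

/-- the segment of `y` -/
theorem seg (y : ℝ) (r : ℕ) (hy : y ≤ aR (N.brN r)) :
    ∃ r' ≤ r, y ≤ aR (N.brN r') ∧ (r' = 0 ∨ aR (N.brN (r' - 1)) ≤ y) := by
  classical
  have hex : ∃ r', y ≤ aR (N.brN r') := ⟨r, hy⟩
  refine ⟨Nat.find hex, Nat.find_min' hex hy, Nat.find_spec hex, ?_⟩
  rcases Nat.eq_zero_or_pos (Nat.find hex) with h | h
  · exact Or.inl h
  · right
    have := Nat.find_min hex (Nat.sub_lt h one_pos)
    exact (not_le.1 this).le

section
variable (D : N.Tab) {θ z : ℝ}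

theorem segb (hz0 : 0 < z) (hzl : aR (N.zL D) < z)
    (fb : ∀ (x0 x1 : ℕ) (y : ℝ), z ≤ y → aR x0 ≤ y → y ≤ aR x1 → |f0 θ y| ≤ vR (N.fst D x0 x1))
    {r : ℕ} {y : ℝ} (hz : z ≤ y) (hy : y ≤ aR (N.brN r)) (hl : r = 0 ∨ aR (N.brN (r - 1)) ≤ y) :
    N.zL D < N.brN r ∧ |f0 θ y| ≤ vR (N.segV D r) := by
  have h1 : N.zL D < N.brN r := by
    by_contra hc
    have := aR_mono (not_lt.1 hc)
    linarith
  refine ⟨h1, ?_⟩
  rw [segV_eq D r h1]
  have h0 : aR 0 ≤ y := by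
    have : aR 0 = 0 := by unfold aR; simp
    rw [this]; linarith
  have h2 : aR (cond (Nat.beq r 0) 0 (N.brN (Nat.sub r 1))) ≤ y := by
    rcases r with _ | r
    · exact h0
    · rcases hl with h | h
      · exact absurd h (Nat.succ_ne_zero r)
      · exact h
  exact (fb _ _ y hz h2 hy).trans (vR_mono (le_max_right _ _))

theorem segFb (hLN : GLN) {r : ℕ} {y : ℝ} (h1 : N.zL D < N.brN r)
    (hy : y ≤ aR (N.brN r)) {a : ℝ} (ha : a ≤ 1) (hv : a ≤ vR (N.segV D r)) :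
    a ≤ Real.exp (-(vR (N.segF D r) * y)) := by
  refine logb hLN ha hv ?_
  have h2 : N.segF D r = Nat.div (Nat.shiftLeft (N.lnL (N.segV D r)) 26) (N.brN r) := by
    unfold N.segF; rw [ble_cond, if_neg (not_le.2 h1)]
  have h3 := div_bd (N.lnL (N.segV D r)) (N.brN r)
  rw [← h2] at h3
  exact (mul_le_mul_of_nonneg_left hy (vR_nonneg _)).trans h3

theorem cond_le1 (b : Bool) (x y : ℕ) : cond b (N.mn x y) x ≤ x := by
  cases b
  · exact le_rfl
  · show N.mn x y ≤ x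
    rw [mn_eq]; exact min_le_left _ _

theorem cond_le2 (b : Bool) (x y : ℕ) (hb : b = true) : cond b (N.mn x y) x ≤ y := by
  subst hb
  show N.mn x y ≤ y
  rw [mn_eq]; exact min_le_right _ _

/-- the entries of `tSG` -/
theorem T_rec (hFLD : GFLD) (r : ℕ) (hr : r < 24) : N.fld (N.tSG D) r =
    min (if r = 0 then 549755813888 else N.fld (N.tSG D) (r - 1))
      (cond (Nat.beq r 23) (N.mn (N.segF D r) (Nat.shiftRight (N.lnL D.B.c0) 6)) (N.segF D r)) :=
  hFLD.2.2.2.2.2.1 _ 549755813888 24 (by norm_num) r hr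

theorem T_F (hFLD : GFLD) (r : ℕ) (hr : r < 24) : N.fld (N.tSG D) r ≤ N.segF D r := by
  rw [T_rec D hFLD r hr]
  exact (min_le_right _ _).trans (cond_le1 _ _ _)

theorem T_23 (hFLD : GFLD) : N.fld (N.tSG D) 23 ≤ Nat.shiftRight (N.lnL D.B.c0) 6 := by
  rw [T_rec D hFLD 23 (by norm_num)]
  exact (min_le_right _ _).trans (cond_le2 _ _ _ rfl)

theorem T_half (hFLD : GFLD) (r : ℕ) (hr : r < 24) : N.fld (N.tSG D) r ≤ 549755813888 := by
  induction r with
  | zero =>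
    rw [T_rec D hFLD 0 hr]
    exact (min_le_left _ _).trans (by simp)
  | succ r ih =>
    rw [T_rec D hFLD (r + 1) hr]
    refine (min_le_left _ _).trans ?_
    rw [if_neg (Nat.succ_ne_zero r)]
    exact ih (by omega)

theorem T_anti (hFLD : GFLD) (r r' : ℕ) (hr : r < 24) (hr' : r' ≤ r) :
    N.fld (N.tSG D) r ≤ N.fld (N.tSG D) r' := by
  induction r with
  | zero => rw [Nat.le_zero.1 hr']
  | succ r ih =>
    rcases Nat.lt_or_eq_of_le hr' with h | h
    · rw [T_rec D hFLD (r + 1) hr]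
      refine (min_le_left _ _).trans ?_
      rw [if_neg (Nat.succ_ne_zero r)]
      exact ih (by omega) (by omega)
    · rw [h]

theorem vR_half {t : ℕ} (h : t ≤ 549755813888) : vR t ≤ 1 / 2 := by
  refine (vR_mono h).trans ?_
  unfold vR; norm_num

/-- decay up to `brN r` -/
theorem Tb (hLN : GLN) (hFLD : GFLD) {m xW xD yN : ℝ} (fa : FA θ z m xW xD yN)
    (hzl : aR (N.zL D) < z) (ab : ∀ y, 0 ≤ y → |f0 θ y| ≤ 1)
    (fb : ∀ (x0 x1 : ℕ) (y : ℝ), z ≤ y → aR x0 ≤ y → y ≤ aR x1 → |f0 θ y| ≤ vR (N.fst D x0 x1))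
    (r : ℕ) (hr : r < 24) (y : ℝ) (h0 : 0 ≤ y) (hy : y ≤ aR (N.brN r)) :
    |f0 θ y| ≤ Real.exp (-(vR (N.fld (N.tSG D) r) * y)) := by
  rcases lt_or_ge y z with hz | hz
  · exact half fa (vR_half (T_half D hFLD r hr)) h0 hz
  · obtain ⟨r', h1, h2, h3⟩ := seg y r hy
    obtain ⟨h4, h5⟩ := segb D fa.z0 hzl fb hz h2 h3
    have h6 := segFb D hLN h4 h2 (ab y h0) h5
    exact exp_bd h6 (vR_mono ((T_anti D hFLD r r' hr h1).trans (T_F D hFLD r' (by omega)))) h0

/-- the search in `sig` -/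
theorem sig_search (Y : ℕ) (n r : ℕ) (hn : r + n = 24) :
    (Nat.rec (motive := fun _ => ℕ → ℕ) (fun _ => 0)
      (fun _ ih r => cond (Nat.ble Y (N.brN r)) (N.fld (N.tSG D) r) (ih (Nat.succ r))) n r : ℕ) = 0 ∨
    ∃ r' < 24, Y ≤ N.brN r' ∧ (Nat.rec (motive := fun _ => ℕ → ℕ) (fun _ => 0)
      (fun _ ih r => cond (Nat.ble Y (N.brN r)) (N.fld (N.tSG D) r) (ih (Nat.succ r))) n r : ℕ) =
      N.fld (N.tSG D) r' := by
  induction n generalizing r with
  | zero => left; rfl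
  | succ n ih =>
    by_cases h : Y ≤ N.brN r
    · right
      refine ⟨r, by omega, h, ?_⟩
      show cond (Nat.ble Y (N.brN r)) _ _ = _
      rw [ble_cond, if_pos h]
    · have h1 : (Nat.rec (motive := fun _ => ℕ → ℕ) (fun _ => 0)
          (fun _ ih r => cond (Nat.ble Y (N.brN r)) (N.fld (N.tSG D) r) (ih (Nat.succ r))) (n + 1) r : ℕ) =
          (Nat.rec (motive := fun _ => ℕ → ℕ) (fun _ => 0)
          (fun _ ih r => cond (Nat.ble Y (N.brN r)) (N.fld (N.tSG D) r) (ih (Nat.succ r))) n (r + 1) : ℕ) := by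
        show cond (Nat.ble Y (N.brN r)) _ _ = _
        rw [ble_cond, if_neg h]
      rw [h1]
      exact ih (r + 1) (by omega)

theorem sig_le {Y : ℕ} (hY : Y ≤ 4294967296) : N.sig D Y = 0 ∨
    ∃ r < 24, Y ≤ N.brN r ∧ N.sig D Y = N.fld (N.tSG D) r := by
  have h : N.sig D Y = (Nat.rec (motive := fun _ => ℕ → ℕ) (fun _ => 0)
      (fun _ ih r => cond (Nat.ble Y (N.brN r)) (N.fld (N.tSG D) r) (ih (Nat.succ r))) 24 0 : ℕ) := by
    unfold N.sig; rw [ble_cond, if_pos hY]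
  rw [h]
  exact sig_search D Y 24 0 rfl

theorem sig_gt {Y : ℕ} (hY : 4294967296 < Y) : N.sig D Y =
    min (N.fld (N.tSG D) 23) (Nat.div (Nat.shiftLeft (N.lC D.B.c0 D.B.gn Y) 26) Y) := by
  unfold N.sig; rw [ble_cond, if_neg (not_le.2 hY), mn_eq]

end

/-- the function (L + g log(y/64))/y is nonincreasing -/
theorem pow_exp {c g y Y s : ℝ} (hc : 0 < c) (hg : 0 ≤ g) (hgL : g ≤ -Real.log c) (hy : 64 ≤ y)
    (hyY : y ≤ Y) (hs : c * (64 / Y) ^ g ≤ Real.exp (-(s * Y))) :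
    c * (64 / y) ^ g ≤ Real.exp (-(s * y)) := by
  have hy0 : 0 < y := by linarith
  have hY0 : 0 < Y := by linarith
  have e1 : ∀ w : ℝ, 0 < w → c * (64 / w) ^ g = Real.exp (Real.log c - g * Real.log (w / 64)) := by
    intro w hw
    have hw1 : (64 / w : ℝ) = (w / 64)⁻¹ := by rw [inv_div]
    rw [Real.exp_sub, Real.exp_log hc, mul_comm g, ← Real.rpow_def_of_pos (by positivity), hw1,
      Real.inv_rpow (by positivity)]
    rfl
  rw [e1 y hy0]
  rw [e1 Y hY0, Real.exp_le_exp] at hs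
  rw [Real.exp_le_exp]
  have h1 : Real.log (Y / 64) = Real.log (y / 64) + Real.log (Y / y) := by
    rw [← Real.log_mul (by positivity) (by positivity)]
    congr 1; field_simp
  have h2 : Real.log (Y / y) ≤ Y / y - 1 := Real.log_le_sub_one_of_pos (by positivity)
  have h3 : 0 ≤ Real.log (y / 64) := Real.log_nonneg (by rw [le_div_iff₀ (by norm_num)]; linarith)
  have h4 : y * Real.log (Y / y) ≤ Y - y := by
    have := mul_le_mul_of_nonneg_left h2 hy0.le
    have e : y * (Y / y - 1) = Y - y := by field_simp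
    linarith
  -- `s Y ≤ L + g log(Y/64)`
  have h5 : s * Y ≤ -Real.log c + g * (Real.log (y / 64) + Real.log (Y / y)) := by
    rw [← h1]; linarith
  -- to show: `s y ≤ L + g log (y/64)`
  have h6 : (s * y) * Y ≤ (-Real.log c + g * Real.log (y / 64)) * Y := by
    have a1 : (s * Y) * y ≤ (-Real.log c + g * (Real.log (y / 64) + Real.log (Y / y))) * y :=
      mul_le_mul_of_nonneg_right h5 hy0.le
    have a2 : g * (y * Real.log (Y / y)) ≤ g * (Y - y) := mul_le_mul_of_nonneg_left h4 hg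
    have a3 : g * (Y - y) ≤ -Real.log c * (Y - y) := mul_le_mul_of_nonneg_right hgL (by linarith)
    have a4 : 0 ≤ g * Real.log (y / 64) * (Y - y) := by
      have : 0 ≤ Y - y := by linarith
      positivity
    nlinarith
  have h7 := le_of_mul_le_mul_right h6 hY0
  linarith

theorem mk_U0 (B : N.Base) (I : N.Ix) : (N.mkTab B I).U0 = N.tU0 B := by
  simp only [N.mkTab]

theorem mk_B (B : N.Base) (I : N.Ix) : (N.mkTab B I).B = B := by
  simp only [N.mkTab]

theorem mk_zL (B : N.Base) (I : N.Ix) : N.zL (N.mkTab B I) = N.xgN I.kz := by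
  simp only [N.mkTab, N.zL]

theorem segC_cases {D : N.Tab} {r : ℕ} (h : N.segC D r = true) (h1 : N.zL D < N.brN r) :
    N.segV D r ≤ D.B.c0 ∨ N.lnU D.B.c0 / 2 ^ 6 + 1 ≤ N.segF D r := by
  unfold N.segC at h
  rw [ble_cond, if_neg (not_le.2 h1), ble_cond] at h
  by_cases h7 : N.segV D r ≤ D.B.c0
  · exact Or.inl h7
  · rw [if_neg h7] at h
    right
    have h8 := Nat.le_of_ble_eq_true h
    have h9 : Nat.shiftRight (N.lnU D.B.c0) 6 = N.lnU D.B.c0 / 2 ^ 6 := Nat.shiftRight_eq_div_pow _ _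
    rw [h9] at h8
    exact h8

theorem T_23' (D : N.Tab) (hFLD : GFLD) : N.fld (N.tSG D) 23 ≤ N.lnL D.B.c0 / 2 ^ 6 := by
  have h1 := T_23 D hFLD
  have h2 : Nat.shiftRight (N.lnL D.B.c0) 6 = N.lnL D.B.c0 / 2 ^ 6 := Nat.shiftRight_eq_div_pow _ _
  rw [h2] at h1
  exact h1

theorem sigS_lt (D : N.Tab) {Y : ℕ} (hY : Y < 4294967296) : N.sigS D Y =
    min (N.sig D Y) (Nat.div (Nat.shiftLeft (N.lnL (N.fld D.U0 (N.idx Y))) 26) Y) := by
  unfold N.sigS; rw [ble_cond, if_neg (not_le.2 hY), mn_eq]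

theorem sigS_ge (D : N.Tab) {Y : ℕ} (hY : 4294967296 ≤ Y) : N.sigS D Y = N.sig D Y := by
  unfold N.sigS; rw [ble_cond, if_pos hY]

theorem vR_zero : vR 0 = 0 := by unfold vR; simp

theorem vR_one : vR 1099511627776 = 1 := by unfold vR; norm_num

section
attribute [local irreducible] N.fld N.lnL N.lnU N.brN N.tSG N.segF N.segV N.lC N.sig N.sigS N.fst N.zL
  N.idx N.tU0 N.mkTab N.segC N.xgN vR aR

theorem core (hLN : GLN) (hPOW : GPOW) (hFLD : GFLD) (D : N.Tab) (θ z m xW xD yN : ℝ)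
    (fa : FA θ z m xW xD yN) (hzl : aR (N.zL D) < z)
    (hfst : ∀ (x0 x1 : ℕ) (y : ℝ), z ≤ y → aR x0 ≤ y → y ≤ aR x1 → |f0 θ y| ≤ vR (N.fst D x0 x1))
    (hU0 : ∀ k ≤ 1152, ∀ y, aR (N.xgN k) ≤ y → |f0 θ y| ≤ vR (N.fld D.U0 k))
    (hid : ∀ Y < 4294967296, N.idx Y ≤ 1152 ∧ N.xgN (N.idx Y) ≤ Y)
    (c0 gn : ℕ) (hDc : D.B.c0 = c0) (hDg : D.B.gn = gn)
    (hc0 : 1 ≤ c0) (hc40 : c0 ≤ 1099511627776) (hg0 : (1 / 2 : ℝ) ≤ (gn : ℝ) / 32)
    (hgc : gn * 34359738368 ≤ N.lnL c0) (hcc : N.lnU c0 / 2 ^ 6 < 549755813888)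
    (hp : ∀ x, 64 ≤ x → |f0 θ x| ≤ vR c0 * (64 / x) ^ ((gn : ℝ) / 32))
    (hsc : ∀ r < 24, N.segC D r = true) :
  ((gn : ℝ) / 32 ≤ -Real.log (vR c0) ∧ c0 < 1099511627776 ∧
    ∀ y, 0 ≤ y → y ≤ 64 → |f0 θ y| ≤ Real.exp (Real.log (vR c0) / 64 * y)) ∧
  (∀ (Y : ℕ) (y : ℝ), 0 ≤ y → y ≤ aR Y → |f0 θ y| ≤ Real.exp (-(vR (N.sig D Y) * y))) ∧
  (∀ Y : ℕ, (∀ y, 0 ≤ y → y ≤ aR Y → |f0 θ y| ≤ Real.exp (-(vR (N.sigS D Y) * y))) ∧
    ∀ y, aR Y ≤ y → |f0 θ y| ≤ Real.exp (-(vR (N.sigS D Y) * aR Y))) ∧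
  (∀ y, 0 ≤ y → y ≤ 16 → |f0 θ y| ≤ Real.exp (-(vR (N.fld (N.tSG D) 11) * y))) ∧
  (∀ y, 0 ≤ y → y ≤ 64 → |f0 θ y| ≤ Real.exp (-(vR (N.fld (N.tSG D) 23) * y))) ∧
  vR (N.fld (N.tSG D) 23) * 64 ≤ -Real.log (vR c0) := by
  have ab : ∀ y, 0 ≤ y → |f0 θ y| ≤ 1 := fun y hy =>
    (aBD (by linarith [fa.th0] : 0 < θ) fa.th1 hy).1
  have hc1 : 0 < vR c0 := by
    unfold vR
    have : (0 : ℝ) < c0 := by exact_mod_cast hc0
    positivity
  have hc2 : vR c0 ≤ 1 := by
    rw [← vR_one]; exact vR_mono hc40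
  have hL := hLN.1 c0 (vR c0) hc1 hc2 le_rfl
  have hU := hLN.2.1 c0 (vR c0) hc0 le_rfl
  have hgL : (gn : ℝ) / 32 ≤ -Real.log (vR c0) := by
    refine le_trans ?_ hL
    unfold vR
    have h1 : ((gn * 34359738368 : ℕ) : ℝ) ≤ (N.lnL c0 : ℝ) := by exact_mod_cast hgc
    push_cast at h1
    rw [div_le_div_iff₀ (by norm_num) (by positivity)]
    linarith
  have hc3 : c0 < 1099511627776 := by
    rcases Nat.lt_or_eq_of_le hc40 with h | h
    · exact h
    · exfalso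
      rw [h, vR_one, Real.log_one] at hgL
      linarith
  have hT := Tb D hLN hFLD fa hzl ab hfst
  have hT23 : vR (N.fld (N.tSG D) 23) * 64 ≤ -Real.log (vR c0) := by
    refine le_trans ?_ hL
    have h1 := T_23' D hFLD
    rw [hDc] at h1
    have h3 : N.fld (N.tSG D) 23 * 64 ≤ N.lnL c0 := by omega
    have h4 : (N.fld (N.tSG D) 23 : ℝ) * 64 ≤ N.lnL c0 := by exact_mod_cast h3
    unfold vR
    rw [div_mul_eq_mul_div]
    gcongr
  have hU32 : -Real.log (vR c0) / 64 ≤ vR (N.lnU c0 / 2 ^ 6 + 1) := by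
    have h1 : N.lnU c0 ≤ 64 * (N.lnU c0 / 2 ^ 6 + 1) := by omega
    have h2 : (N.lnU c0 : ℝ) ≤ 64 * ((N.lnU c0 / 2 ^ 6 + 1 : ℕ) : ℝ) := by exact_mod_cast h1
    have h3 : vR (N.lnU c0) ≤ 64 * vR (N.lnU c0 / 2 ^ 6 + 1) := by
      unfold vR
      rw [mul_div_assoc']
      gcongr
    linarith
  have hp0 : ∀ y, 64 ≤ y → |f0 θ y| ≤ vR c0 := by
    intro y hy
    refine (hp y hy).trans ?_
    have h1 : (64 / y) ^ ((gn : ℝ) / 32) ≤ 1 :=
      Real.rpow_le_one (by positivity) (by rw [div_le_one (by linarith)]; exact hy) (by linarith)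
    exact mul_le_of_le_one_right hc1.le h1
  have hsig : ∀ (Y : ℕ) (y : ℝ), 0 ≤ y → y ≤ aR Y → |f0 θ y| ≤ Real.exp (-(vR (N.sig D Y) * y)) := by
    intro Y y h0 hy
    rcases Nat.lt_or_ge 4294967296 Y with hY | hY
    · rw [sig_gt D hY, hDc, hDg]
      rcases le_or_gt y 64 with h64 | h64
      · exact exp_bd (hT 23 (by norm_num) y h0 (by rw [aR_23]; exact h64)) (vR_mono (min_le_left _ _)) h0
      · refine (hp y h64.le).trans ?_
        refine exp_bd (τ := vR (Nat.div (Nat.shiftLeft (N.lC c0 gn Y) 26) Y)) ?_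
          (vR_mono (min_le_right _ _)) h0
        refine pow_exp hc1 (by linarith) hgL h64.le hy ?_
        refine (hPOW.2 c0 gn Y hc0 hc40 hY.le).trans (Real.exp_le_exp.2 ?_)
        have := div_bd (N.lC c0 gn Y) Y
        linarith
    · rcases sig_le D hY with h | ⟨r, hr, h1, h2⟩
      · rw [h, vR_zero, zero_mul, neg_zero, Real.exp_zero]
        exact ab y h0
      · rw [h2]
        exact hT r hr y h0 (hy.trans (aR_mono h1))
  refine ⟨⟨hgL, hc3, ?_⟩, hsig, ?_, ?_, ?_, hT23⟩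
  · intro y h0 hy
    have e1 : Real.log (vR c0) / 64 * y = -(-Real.log (vR c0) / 64 * y) := by ring
    rw [e1]
    rcases lt_or_ge y z with hz | hz
    · refine half fa ?_ h0 hz
      refine hU32.trans (vR_half ?_)
      omega
    · obtain ⟨r, h1, h2, h3⟩ := seg y 23 (by rw [aR_23]; exact hy)
      obtain ⟨h4, h5⟩ := segb D fa.z0 hzl hfst hz h2 h3
      rcases segC_cases (hsc r (by omega)) h4 with h7 | h8
      · rw [hDc] at h7
        refine (h5.trans (vR_mono h7)).trans ?_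
        calc vR c0 = Real.exp (Real.log (vR c0)) := (Real.exp_log hc1).symm
          _ ≤ _ := Real.exp_le_exp.2 (by
            have h9 : 0 ≤ -Real.log (vR c0) := by linarith
            nlinarith)
      · rw [hDc] at h8
        exact exp_bd (segFb D hLN h4 h2 (ab y h0) h5) (hU32.trans (vR_mono h8)) h0
  · intro Y
    rcases Nat.lt_or_ge Y 4294967296 with hY | hY
    · have e1 := sigS_lt D hY
      constructor
      · intro y h0 hy
        exact exp_bd (hsig Y y h0 hy) (vR_mono (by rw [e1]; exact min_le_left _ _)) h0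
      · intro y hy
        have h0 : 0 ≤ y := (aR_nonneg Y).trans hy
        obtain ⟨hk1, hk2⟩ := hid Y hY
        have h1 := hU0 (N.idx Y) hk1 y ((aR_mono hk2).trans hy)
        refine logb hLN (ab y h0) h1 ?_
        have h2 := div_bd (N.lnL (N.fld D.U0 (N.idx Y))) Y
        refine le_trans ?_ h2
        exact mul_le_mul_of_nonneg_right (vR_mono (by rw [e1]; exact min_le_right _ _)) (aR_nonneg Y)
    · rw [sigS_ge D hY]
      refine ⟨hsig Y, ?_⟩
      intro y hy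
      have h64 : (64 : ℝ) ≤ aR Y := by rw [← aR_23, brN_23]; exact aR_mono hY
      have hy64 : 64 ≤ y := h64.trans hy
      rcases Nat.lt_or_eq_of_le hY with h | h
      · -- `Y > 64`
        refine (hp y hy64).trans ?_
        have h1 : vR c0 * (64 / y) ^ ((gn : ℝ) / 32) ≤ vR c0 * (64 / aR Y) ^ ((gn : ℝ) / 32) := by
          have hp : 0 < aR Y := by linarith
          have hy1 : 0 < y := by linarith
          refine mul_le_mul_of_nonneg_left (Real.rpow_le_rpow (by positivity) ?_ (by linarith)) hc1.le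
          exact div_le_div_of_nonneg_left (by norm_num) hp hy
        refine h1.trans ((hPOW.2 c0 gn Y hc0 hc40 hY).trans (Real.exp_le_exp.2 ?_))
        have h2 := div_bd (N.lC c0 gn Y) Y
        have h3 : vR (N.sig D Y) ≤ vR (Nat.div (Nat.shiftLeft (N.lC c0 gn Y) 26) Y) :=
          vR_mono (by rw [sig_gt D h, hDc, hDg]; exact min_le_right _ _)
        have h4 := mul_le_mul_of_nonneg_right h3 (aR_nonneg Y)
        linarith
      · -- `Y = 64`
        have hY64 : aR Y = 64 := by rw [← h, ← brN_23]; exact aR_23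
        rw [hY64]
        rcases sig_le D h.symm.le with h1 | ⟨r, hr, h1, h2⟩
        · rw [h1, vR_zero, zero_mul, neg_zero, Real.exp_zero]
          exact ab y (by linarith)
        · have hr23 : r = 23 := by
            by_contra hne
            have := brN_lt r (by omega)
            omega
          rw [h2, hr23]
          refine (hp0 y hy64).trans ?_
          calc vR c0 = Real.exp (Real.log (vR c0)) := (Real.exp_log hc1).symm
            _ ≤ _ := Real.exp_le_exp.2 (by linarith)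
  · intro y h0 hy
    exact hT 11 (by norm_num) y h0 (by rw [aR_11]; exact hy)
  · intro y h0 hy
    exact hT 23 (by norm_num) y h0 (by rw [aR_23]; exact hy)

end

theorem gSGN : GSGN := by
  intro hLN hEXP hPOW hSQ hFLD hGRID hINT hFST A B I θ z th
  obtain ⟨-, hfst, -, -, -⟩ := hFST hEXP hPOW hGRID hINT hSQ hFLD A B I θ z th
  refine core hLN hPOW hFLD (N.mkTab B I) θ z _ _ _ _ th.fa ?_ hfst ?_ ?_ B.c0 B.gn ?_ ?_ th.ix.c0 ?_
    th.bf.fp.g0 ?_ th.ix.cc th.bf.fp.p0 th.ix.sc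
  · rw [mk_zL]; exact th.zl
  · rw [mk_U0]; exact th.uf.u0
  · intro Y hY
    obtain ⟨k, d, hk, -, -, hidx, -⟩ := hGRID.2.2.2.2.1 Y hY
    exact ⟨by omega, hGRID.2.2.2.2.2.2.1 Y⟩
  · rw [mk_B]
  · rw [mk_B]
  · rw [← th.uf.e0]; exact th.uf.m0 1152 le_rfl
  · exact th.ix.gc

end Pool.Agent.Helper75.PT
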